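import Mathlib

set_option autoImplicit false

namespace Pool.Agent.Results.MP_cc5630_nt.Theta

open Finset

/-- `S` is a covering set: all its elements exceed `1`, and one residue class per element of `S`
can be chosen such that the classes cover all integers. -/
def IsCoveringSet (S : Finset ℕ) : Prop :=
  (∀ n ∈ S, 1 < n) ∧ ∃ a : ℕ → ℤ, ∀ z : ℤ, ∃ n ∈ S, z ≡ a n [ZMOD (n : ℤ)]

/-- `S` is an irreducible covering set: a covering set no proper subset of which is one. -/
def IsIrreducible (S : Finset ℕ) : Prop :=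
  IsCoveringSet S ∧ ∀ T : Finset ℕ, T ⊂ S → ¬ IsCoveringSet T

/-- The reciprocal sums of the irreducible covering sets of size `k`. -/
def reciprocalSums (k : ℕ) : Set ℝ :=
  {x | ∃ S : Finset ℕ, IsIrreducible S ∧ S.card = k ∧ x = ∑ n ∈ S, (1 : ℝ) / n}

/-- `M k` is the maximal reciprocal sum of an irreducible covering set of size `k`
(`0` if there is none). -/
noncomputable def M (k : ℕ) : ℝ := sSup (reciprocalSums k)

/-! ### The maximum in the definition of `M` is attained -/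

theorem count_class (n W : ℕ) (hn : 0 < n) (z0 a : ℤ) :
    ((Finset.Ico z0 (z0 + n * W)).filter (fun z => z ≡ a [ZMOD (n : ℤ)])).card = W := by
  have h1 := Int.Ico_filter_modEq_card z0 (z0 + n * W) (r := (n : ℤ)) (by exact_mod_cast hn) a
  have hn0 : ((n : ℤ) : ℚ) ≠ 0 := by exact_mod_cast hn.ne'
  have h2 : (((z0 + n * W : ℤ) : ℚ) - (a : ℚ)) / ((n : ℤ) : ℚ)
      = ((z0 : ℚ) - a) / ((n : ℤ) : ℚ) + (W : ℤ) := by
    push_cast
    field_simp
    ring
  rw [h2, Int.ceil_add_intCast] at h1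
  have h3 : max (⌈((z0 : ℚ) - a) / ((n : ℤ) : ℚ)⌉ + (W : ℤ) - ⌈((z0 : ℚ) - a) / ((n : ℤ) : ℚ)⌉) 0
      = (W : ℤ) := by
    rw [add_sub_cancel_left]
    exact max_eq_left (by positivity)
  rw [h3] at h1
  exact_mod_cast h1

theorem min_bound (S A : Finset ℕ) (a : ℕ → ℤ) (hS : ∀ n ∈ S, 1 < n)
    (hcov : ∀ z : ℤ, ∃ n ∈ S, z ≡ a n [ZMOD (n : ℤ)]) (hAS : A ⊆ S) (hA : ¬ IsCoveringSet A)
    (m : ℕ) (hm : ∀ n ∈ S \ A, m ≤ n) : m ≤ (S \ A).card * ∏ n ∈ A, n := by
  obtain ⟨z0, hz0⟩ : ∃ z0 : ℤ, ∀ n ∈ A, ¬ z0 ≡ a n [ZMOD (n : ℤ)] := by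
    by_contra hcon
    push Not at hcon
    exact hA ⟨fun n hn => hS n (hAS hn), a, hcon⟩
  set P := ∏ n ∈ A, n with hP
  set W := ∏ n ∈ S \ A, n with hW
  have hPpos : 0 < P := Finset.prod_pos (fun n hn => by have := hS n (hAS hn); omega)
  have hWpos : 0 < W := Finset.prod_pos (fun n hn => by
    have := hS n (Finset.mem_sdiff.1 hn).1; omega)
  have h1 := count_class P W hPpos z0 z0
  have hsub : (Finset.Ico z0 (z0 + P * W)).filter (fun z => z ≡ z0 [ZMOD (P : ℤ)]) ⊆
      (S \ A).biUnion (fun n =>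
        (Finset.Ico z0 (z0 + P * W)).filter (fun z => z ≡ a n [ZMOD (n : ℤ)])) := by
    intro z hz
    rw [Finset.mem_filter] at hz
    obtain ⟨n, hn, hzn⟩ := hcov z
    rw [Finset.mem_biUnion]
    refine ⟨n, ?_, Finset.mem_filter.2 ⟨hz.1, hzn⟩⟩
    rw [Finset.mem_sdiff]
    refine ⟨hn, fun hnA => hz0 n hnA ?_⟩
    have hd : (n : ℤ) ∣ (P : ℤ) := by exact_mod_cast Finset.dvd_prod_of_mem _ hnA
    exact (hz.2.of_dvd hd).symm.trans hzn
  have h2 : W ≤ ∑ n ∈ S \ A, P * (W / n) := by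
    calc W = _ := h1.symm
      _ ≤ _ := Finset.card_le_card hsub
      _ ≤ _ := Finset.card_biUnion_le
      _ = ∑ n ∈ S \ A, P * (W / n) := by
          apply Finset.sum_congr rfl
          intro n hn
          have hn0 : 0 < n := by have := hS n (Finset.mem_sdiff.1 hn).1; omega
          have hd : n ∣ W := Finset.dvd_prod_of_mem _ hn
          have e1 : (P : ℤ) * W = n * ((P * (W / n) : ℕ) : ℤ) := by
            have : P * W = n * (P * (W / n)) := by
              rw [Nat.mul_left_comm, Nat.mul_div_cancel' hd]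
            exact_mod_cast this
          rw [e1]
          exact count_class n (P * (W / n)) hn0 z0 (a n)
  have h3 : m * W ≤ (S \ A).card * P * W := by
    calc m * W ≤ m * ∑ n ∈ S \ A, P * (W / n) := Nat.mul_le_mul_left _ h2
      _ = ∑ n ∈ S \ A, m * (P * (W / n)) := Finset.mul_sum _ _ _
      _ ≤ ∑ n ∈ S \ A, P * W := by
          apply Finset.sum_le_sum
          intro n hn
          have hd : n ∣ W := Finset.dvd_prod_of_mem _ hn
          calc m * (P * (W / n)) ≤ n * (P * (W / n)) := Nat.mul_le_mul_right _ (hm n hn)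
            _ = P * (n * (W / n)) := by ring
            _ = P * W := by rw [Nat.mul_div_cancel' hd]
      _ = (S \ A).card * P * W := by rw [Finset.sum_const, smul_eq_mul]; ring
  exact Nat.le_of_mul_le_mul_right h3 hWpos

theorem finite_aux (j : ℕ) : ∀ A : Finset ℕ, ¬ IsCoveringSet A →
    {S : Finset ℕ | IsIrreducible S ∧ A ⊆ S ∧ (S \ A).card = j}.Finite := by
  induction j with
  | zero =>
    intro A hA
    convert Set.finite_empty
    rw [Set.eq_empty_iff_forall_notMem]
    rintro S ⟨hS, hAS, hc⟩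
    have h1 : S ⊆ A := by
      rw [Finset.card_eq_zero, Finset.sdiff_eq_empty_iff_subset] at hc
      exact hc
    exact hA (Finset.Subset.antisymm hAS h1 ▸ hS.1)
  | succ j ih =>
    intro A hA
    classical
    have hfin : (⋃ m ∈ Finset.range ((j + 1) * (∏ n ∈ A, n) + 1),
        (if IsCoveringSet (insert m A) then {insert m A} else
          {S : Finset ℕ | IsIrreducible S ∧ insert m A ⊆ S ∧ (S \ insert m A).card = j})).Finite := by
      apply Set.Finite.biUnion (Finset.finite_toSet _)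
      intro m _
      split_ifs with h
      · exact Set.finite_singleton _
      · exact ih _ h
    refine hfin.subset ?_
    rintro S ⟨hS, hAS, hc⟩
    have hne : (S \ A).Nonempty := by
      rw [← Finset.card_pos]
      omega
    set m := (S \ A).min' hne with hm
    have hmem : m ∈ S \ A := Finset.min'_mem _ hne
    obtain ⟨h1, a, h2⟩ := hS.1
    have hb := min_bound S A a h1 h2 hAS hA m (fun n hn => Finset.min'_le _ n hn)
    rw [hc] at hb
    simp only [Set.mem_iUnion]
    refine ⟨m, Finset.mem_range.2 (by omega), ?_⟩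
    have hins : insert m A ⊆ S := by
      intro n hn
      rcases Finset.mem_insert.1 hn with rfl | hn
      · exact (Finset.mem_sdiff.1 hmem).1
      · exact hAS hn
    split_ifs with h
    · rw [Set.mem_singleton_iff]
      by_contra hneq
      exact hS.2 _ (Finset.ssubset_iff_subset_ne.2 ⟨hins, fun h => hneq h.symm⟩) h
    · refine ⟨hS, hins, ?_⟩
      have h3 : S \ insert m A = (S \ A).erase m := by
        ext n
        simp only [Finset.mem_sdiff, Finset.mem_insert, Finset.mem_erase, not_or]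
        tauto
      rw [h3, Finset.card_erase_of_mem hmem]
      omega

/-- There are only finitely many irreducible covering sets of size `k`. -/
theorem finite_irreducible (k : ℕ) :
    {S : Finset ℕ | IsIrreducible S ∧ S.card = k}.Finite := by
  have h0 : ¬ IsCoveringSet ∅ := by
    rintro ⟨_, a, ha⟩
    obtain ⟨n, hn, _⟩ := ha 0
    simp at hn
  refine (finite_aux k ∅ h0).subset ?_
  rintro S ⟨h1, h2⟩
  exact ⟨h1, Finset.empty_subset _, by simpa using h2⟩

/-- `M k` is attained as soon as an irreducible covering set of size `k` exists. -/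
theorem M_isGreatest (k : ℕ) (h : (reciprocalSums k).Nonempty) :
    IsGreatest (reciprocalSums k) (M k) := by
  have hfin : (reciprocalSums k).Finite := by
    have h1 : reciprocalSums k =
        (fun S : Finset ℕ => ∑ n ∈ S, (1 : ℝ) / n) '' {S | IsIrreducible S ∧ S.card = k} := by
      ext x
      constructor
      · rintro ⟨S, h1, h2, rfl⟩
        exact ⟨S, ⟨h1, h2⟩, rfl⟩
      · rintro ⟨S, ⟨h1, h2⟩, rfl⟩
        exact ⟨S, h1, h2, rfl⟩
    rw [h1]
    exact (finite_irreducible k).image _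
  exact ⟨h.csSup_mem hfin, fun x hx => le_csSup hfin.bddAbove hx⟩

/-- `M k = 0` if there is no irreducible covering set of size `k`. -/
theorem M_eq_zero (k : ℕ) (h : ¬ (reciprocalSums k).Nonempty) : M k = 0 := by
  rw [Set.not_nonempty_iff_eq_empty] at h
  rw [M, h, Real.sSup_empty]

/-! ### The construction -/

/-- The product of the `q ^ e q` over the primes `q < X`. -/
def Q (e : ℕ → ℕ) (X : ℕ) : ℕ := ∏ q ∈ (range X).filter Nat.Prime, q ^ e q

/-- The indices `(q, i, j)` with `q < X` prime, `i < e q` and `j < q - 1`. -/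
def idx (e : ℕ → ℕ) (X : ℕ) : Finset (Σ _ : ℕ, ℕ × ℕ) :=
  ((range X).filter Nat.Prime).sigma (fun q => range (e q) ×ˢ range (q - 1))

/-- The modulus `q ^ (i + 1) * (j + 1)`. -/
def val (p : Σ _ : ℕ, ℕ × ℕ) : ℕ := p.1 ^ (p.2.1 + 1) * (p.2.2 + 1)

theorem mem_idx {e : ℕ → ℕ} {X : ℕ} {p : Σ _ : ℕ, ℕ × ℕ} :
    p ∈ idx e X ↔ p.1 < X ∧ p.1.Prime ∧ p.2.1 < e p.1 ∧ p.2.2 < p.1 - 1 := by
  simp [idx, and_assoc]

theorem Q_pos (e : ℕ → ℕ) (X : ℕ) : 0 < Q e X := by
  apply Finset.prod_pos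
  intro q hq
  exact pow_pos (Finset.mem_filter.1 hq).2.pos _

theorem Q_succ_prime (e : ℕ → ℕ) {x : ℕ} (hx : x.Prime) : Q e (x + 1) = Q e x * x ^ e x := by
  unfold Q
  rw [Finset.range_add_one, Finset.filter_insert, if_pos hx, Finset.prod_insert (by simp),
    mul_comm]

theorem Q_succ_not_prime (e : ℕ → ℕ) {x : ℕ} (hx : ¬ x.Prime) : Q e (x + 1) = Q e x := by
  unfold Q
  rw [Finset.range_add_one, Finset.filter_insert, if_neg hx]

theorem Q_dvd (e : ℕ → ℕ) {x y : ℕ} (h : x ≤ y) : Q e x ∣ Q e y := by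
  apply Finset.prod_dvd_prod_of_subset
  intro q hq
  simp only [Finset.mem_filter, Finset.mem_range] at hq ⊢
  exact ⟨by omega, hq.2⟩

theorem coprime_Q (e : ℕ → ℕ) {x : ℕ} (hx : x.Prime) : Nat.Coprime x (Q e x) := by
  apply Nat.Coprime.prod_right
  intro q hq
  simp only [Finset.mem_filter, Finset.mem_range] at hq
  apply Nat.Coprime.pow_right
  exact (Nat.coprime_primes hx hq.2).2 (by omega)

theorem dvd_Q (e : ℕ → ℕ) {X q d : ℕ} (he : ∀ q, X ≤ e q) (hq : q ≤ X) (hd : 0 < d)
    (hdq : d < q) : d ∣ Q e q := by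
  have h1 : ∏ r ∈ d.primeFactors, r ^ d.factorization r = d := by
    have := Nat.prod_factorization_pow_eq_self hd.ne'
    rwa [Nat.prod_factorization_eq_prod_primeFactors] at this
  rw [← h1]
  have h2 : ∏ r ∈ d.primeFactors, r ^ d.factorization r ∣ ∏ r ∈ d.primeFactors, r ^ e r := by
    apply Finset.prod_dvd_prod_of_dvd
    intro r _
    apply pow_dvd_pow
    have := Nat.factorization_lt r hd.ne'
    have := he r
    omega
  refine h2.trans ?_
  apply Finset.prod_dvd_prod_of_subset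
  intro r hr
  simp only [Finset.mem_filter, Finset.mem_range]
  refine ⟨?_, Nat.prime_of_mem_primeFactors hr⟩
  have := Nat.le_of_mem_primeFactors hr
  omega

theorem val_dvd_Q (e : ℕ → ℕ) {X x : ℕ} (he : ∀ q, X ≤ e q) (hx : x ≤ X)
    {p : Σ _ : ℕ, ℕ × ℕ} (hp : p ∈ idx e x) : val p ∣ Q e x := by
  rw [mem_idx] at hp
  obtain ⟨h1, h2, h3, h4⟩ := hp
  have h5 : val p ∣ Q e (p.1 + 1) := by
    rw [Q_succ_prime e h2, mul_comm]
    unfold val
    apply Nat.mul_dvd_mul
    · exact pow_dvd_pow _ h3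
    · exact dvd_Q e he (by omega) (by omega) (by omega)
  exact h5.trans (Q_dvd e (by omega))

theorem val_pos {e : ℕ → ℕ} {x : ℕ} {p : Σ _ : ℕ, ℕ × ℕ} (hp : p ∈ idx e x) : 1 < val p := by
  rw [mem_idx] at hp
  unfold val
  have h1 : 1 < p.1 ^ (p.2.1 + 1) := Nat.one_lt_pow (by omega) hp.2.1.one_lt
  calc 1 < p.1 ^ (p.2.1 + 1) := h1
    _ ≤ p.1 ^ (p.2.1 + 1) * (p.2.2 + 1) := Nat.le_mul_of_pos_right _ (by omega)

theorem exp_unique {q i i' j j' : ℕ} (hq : 1 < q) (hj : j < q - 1) (hj' : j' < q - 1)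
    (h : q ^ (i + 1) * (j + 1) = q ^ (i' + 1) * (j' + 1)) : i = i' ∧ j = j' := by
  have key : ∀ a b c d : ℕ, d < q - 1 → q ^ (a + 1) * (c + 1) = q ^ (b + 1) * (d + 1) → a ≤ b := by
    intro a b c d hd hh
    by_contra hlt
    have hlt : b < a := not_le.1 hlt
    obtain ⟨u, rfl⟩ : ∃ u, a = b + 1 + u := ⟨a - b - 1, by omega⟩
    have e1 : q ^ (b + 1 + u + 1) * (c + 1) = q ^ (b + 1) * (q * (q ^ u * (c + 1))) := by ring
    rw [e1] at hh
    have hh' := Nat.eq_of_mul_eq_mul_left (pow_pos (by omega) (b + 1)) hh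
    have h2 : q ≤ q * (q ^ u * (c + 1)) := Nat.le_mul_of_pos_right _
      (Nat.mul_pos (pow_pos (by omega) _) (by omega))
    omega
  have e1 : i = i' := le_antisymm (key i i' j j' hj' h) (key i' i j' j hj h.symm)
  subst e1
  have h2 := Nat.eq_of_mul_eq_mul_left (pow_pos (by omega) (i + 1)) h
  exact ⟨rfl, by omega⟩

theorem val_inj {e : ℕ → ℕ} {x : ℕ} : Set.InjOn val (idx e x : Set (Σ _ : ℕ, ℕ × ℕ)) := by
  rintro ⟨q, i, j⟩ hp ⟨q', i', j'⟩ hp' h
  have hp := mem_idx.1 (Finset.mem_coe.1 hp)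
  have hp' := mem_idx.1 (Finset.mem_coe.1 hp')
  simp only [val] at h hp hp'
  have key : ∀ a b i j i' j' : ℕ, a.Prime → b.Prime → j' < b - 1 →
      a ^ (i + 1) * (j + 1) = b ^ (i' + 1) * (j' + 1) → a ≤ b := by
    intro a b i j i' j' ha hb hj hh
    have h1 : a ∣ b ^ (i' + 1) * (j' + 1) := by
      rw [← hh]
      exact (dvd_pow_self a (by omega)).mul_right _
    rcases (Nat.Prime.dvd_mul ha).1 h1 with h2 | h2
    · exact Nat.le_of_dvd hb.pos (ha.dvd_of_dvd_pow h2)
    · have := Nat.le_of_dvd (by omega) h2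
      omega
  have e1 : q = q' := le_antisymm (key q q' i j i' j' hp.2.1 hp'.2.1 hp'.2.2.2 h)
    (key q' q i' j' i j hp'.2.1 hp.2.1 hp.2.2.2 h.symm)
  subst e1
  obtain ⟨rfl, rfl⟩ := exp_unique hp.2.1.one_lt hp.2.2.2 hp'.2.2.2 h
  rfl

/-! ### Lower groups leave holes -/

theorem count_bad (q Q e n v : ℕ) (hq : 0 < q) (hc : Nat.Coprime q Q) (r0 a : ℤ) (hv : v ≤ e)
    (hn : q ^ v ∣ n) :
    ((range (q ^ e)).filter (fun t : ℕ => r0 + t * Q ≡ a [ZMOD (n : ℤ)])).card ≤ q ^ (e - v) := by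
  have hqv : 0 < q ^ v := pow_pos hq v
  rw [← Finset.card_range (q ^ (e - v))]
  refine Finset.card_le_card_of_injOn (fun t => t / q ^ v) ?_ ?_
  · intro t ht
    simp only [Finset.coe_filter, Finset.mem_range, Set.mem_ofPred_eq] at ht
    simp only [Finset.coe_range, Set.mem_Iio]
    apply Nat.div_lt_of_lt_mul
    rw [← pow_add]
    have : v + (e - v) = e := by omega
    rw [this]
    exact ht.1
  · intro t ht t' ht' h
    simp only [Finset.coe_filter, Finset.mem_range, Set.mem_ofPred_eq] at ht ht'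
    simp only at h
    have h1 : r0 + t * Q ≡ r0 + t' * Q [ZMOD (n : ℤ)] := ht.2.trans ht'.2.symm
    have h2 : ((q ^ v : ℕ) : ℤ) ∣ (n : ℤ) := by exact_mod_cast hn
    have h3 : r0 + t * Q ≡ r0 + t' * Q [ZMOD ((q ^ v : ℕ) : ℤ)] := h1.of_dvd h2
    have h4 : (t : ℤ) * Q ≡ t' * Q [ZMOD ((q ^ v : ℕ) : ℤ)] := Int.ModEq.add_left_cancel' r0 h3
    have h5 : t * Q ≡ t' * Q [MOD q ^ v] := by
      rw [← Int.natCast_modEq_iff]
      push_cast
      push_cast at h4
      exact h4
    have h6 : t ≡ t' [MOD q ^ v] := by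
      apply Nat.ModEq.cancel_right_of_coprime _ h5
      exact Nat.Coprime.pow_left v hc
    have h7 : t % q ^ v = t' % q ^ v := h6
    rw [← Nat.div_add_mod t (q ^ v), ← Nat.div_add_mod t' (q ^ v), h, h7]

/-- The values `t < q ^ e` hit by one of the classes. -/
theorem count_bad_union (q Q e : ℕ) (hq : 0 < q) (hc : Nat.Coprime q Q) (r0 : ℤ)
    (P : Finset (ℕ × ℕ)) (n : ℕ × ℕ → ℕ) (a : ℕ × ℕ → ℤ) (hP : ∀ p ∈ P, p.1 < e)
    (hn : ∀ p ∈ P, q ^ (p.1 + 1) ∣ n p) :
    ((range (q ^ e)).filter (fun t : ℕ => ∃ p ∈ P, r0 + t * Q ≡ a p [ZMOD (n p : ℤ)])).card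
      ≤ ∑ p ∈ P, q ^ (e - (p.1 + 1)) := by
  have h1 : (range (q ^ e)).filter (fun t : ℕ => ∃ p ∈ P, r0 + t * Q ≡ a p [ZMOD (n p : ℤ)])
      ⊆ P.biUnion (fun p => (range (q ^ e)).filter
          (fun t : ℕ => r0 + t * Q ≡ a p [ZMOD (n p : ℤ)])) := by
    intro t ht
    simp only [Finset.mem_filter, Finset.mem_biUnion] at ht ⊢
    obtain ⟨h1, p, hp, h2⟩ := ht
    exact ⟨p, hp, h1, h2⟩
  calc _ ≤ _ := Finset.card_le_card h1
    _ ≤ _ := Finset.card_biUnion_le
    _ ≤ _ := Finset.sum_le_sum (fun p hp =>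
      count_bad q Q e (n p) (p.1 + 1) hq hc r0 (a p) (hP p hp) (hn p hp))

theorem weight_full (q e : ℕ) (hq : 0 < q) :
    ∑ p ∈ range e ×ˢ range (q - 1), q ^ (e - (p.1 + 1)) + 1 = q ^ e := by
  rw [Finset.sum_product]
  simp only [Finset.sum_const, Finset.card_range, smul_eq_mul]
  rw [Finset.sum_congr rfl (g := fun x => (q - 1) * q ^ (e - 1 - x))
    (fun x _ => by rw [Nat.sub_sub, Nat.add_comm 1 x]),
    Finset.sum_range_reflect (fun x => (q - 1) * q ^ x) e]
  induction e with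
  | zero => simp
  | succ e ih =>
    rw [Finset.sum_range_succ, pow_succ]
    obtain ⟨u, rfl⟩ : ∃ u, q = u + 1 := ⟨q - 1, by omega⟩
    simp only [Nat.add_sub_cancel] at ih ⊢
    nlinarith [ih]

theorem one_hole (e : ℕ → ℕ) (X : ℕ) (he : ∀ q, X ≤ e q) (a : ℕ → ℤ)
    (K : (Σ _ : ℕ, ℕ × ℕ) → Prop) (x : ℕ) (hx : x ≤ X) :
    ∀ r0 : ℤ, ∀ y ≤ x, (∀ p ∈ idx e y, K p → ¬ r0 ≡ a (val p) [ZMOD (val p : ℤ)]) →
    ∃ r : ℤ, r ≡ r0 [ZMOD (Q e y : ℤ)] ∧
      ∀ p ∈ idx e x, K p → ¬ r ≡ a (val p) [ZMOD (val p : ℤ)] := by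
  induction x with
  | zero =>
    intro r0 y hy h
    have : y = 0 := by omega
    subst this
    exact ⟨r0, Int.ModEq.refl _, h⟩
  | succ x ih =>
    intro r0 y hy h
    rcases Nat.lt_or_ge x y with hxy | hxy
    · have : y = x + 1 := by omega
      subst this
      exact ⟨r0, Int.ModEq.refl _, h⟩
    · obtain ⟨r, hr0, hr⟩ := ih (by omega) r0 y hxy h
      by_cases hpr : x.Prime
      · have hb := count_bad_union x (Q e x) (e x) hpr.pos (coprime_Q e hpr) r
          (range (e x) ×ˢ range (x - 1)) (fun p => val ⟨x, p⟩) (fun p => a (val ⟨x, p⟩))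
          (fun p hp => by simpa using (Finset.mem_product.1 hp).1)
          (fun p hp => by simp [val])
        have hw := weight_full x (e x) hpr.pos
        have hlt : ((range (x ^ e x)).filter (fun t : ℕ => ∃ p ∈ range (e x) ×ˢ range (x - 1),
            r + t * (Q e x : ℕ) ≡ a (val ⟨x, p⟩) [ZMOD (val ⟨x, p⟩ : ℤ)])).card
            < (range (x ^ e x)).card := by
          rw [Finset.card_range]
          omega
        obtain ⟨t, ht, hnt⟩ := Finset.exists_mem_notMem_of_card_lt_card hlt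
        have hgood : ∀ p ∈ range (e x) ×ˢ range (x - 1),
            ¬ r + t * (Q e x : ℕ) ≡ a (val ⟨x, p⟩) [ZMOD (val ⟨x, p⟩ : ℤ)] := by
          intro p hp hh
          exact hnt (Finset.mem_filter.2 ⟨ht, p, hp, hh⟩)
        refine ⟨r + t * (Q e x : ℕ), ?_, ?_⟩
        · refine Int.ModEq.trans ?_ hr0
          have : (Q e y : ℤ) ∣ (Q e x : ℤ) := by exact_mod_cast Q_dvd e hxy
          have h3 : r + t * (Q e x : ℕ) ≡ r + 0 [ZMOD (Q e y : ℤ)] := by
            apply Int.ModEq.add_left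
            exact (Int.modEq_zero_iff_dvd.2 (this.mul_left _))
          simpa using h3
        · intro p hp hKp
          rw [mem_idx] at hp
          rcases Nat.lt_or_ge p.1 x with hlt' | hge
          · have hp' : p ∈ idx e x := mem_idx.2 ⟨hlt', hp.2⟩
            have hd : (val p : ℤ) ∣ (Q e x : ℤ) := by
              exact_mod_cast val_dvd_Q e he (by omega) hp'
            intro hh
            apply hr p hp' hKp
            refine Int.ModEq.trans ?_ hh
            have h3 : r + 0 ≡ r + t * (Q e x : ℕ) [ZMOD (val p : ℤ)] := by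
              apply Int.ModEq.add_left
              exact (Int.modEq_zero_iff_dvd.2 (hd.mul_left _)).symm
            simpa using h3
          · obtain ⟨q, i, j⟩ := p
            have : q = x := by simp only at hge hp; omega
            subst this
            exact hgood (i, j) (by simpa using ⟨hp.2.2.1, hp.2.2.2⟩)
      · refine ⟨r, hr0, ?_⟩
        intro p hp hKp
        rw [mem_idx] at hp
        refine hr p ?_ hKp
        rw [mem_idx]
        refine ⟨?_, hp.2⟩
        rcases Nat.lt_or_ge p.1 x with hlt' | hge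
        · exact hlt'
        · have : p.1 = x := by omega
          rw [this] at hp
          exact absurd hp.2.1 hpr

theorem two_holes (e : ℕ → ℕ) (X : ℕ) (he : ∀ q, X ≤ e q) (a : ℕ → ℤ)
    (p0 : Σ _ : ℕ, ℕ × ℕ) (hp0 : p0 ∈ idx e X) :
    ∃ r1 r2 : ℤ, ¬ r1 ≡ r2 [ZMOD (Q e X : ℤ)] ∧
      (∀ p ∈ idx e X, p ≠ p0 → ¬ r1 ≡ a (val p) [ZMOD (val p : ℤ)]) ∧
      (∀ p ∈ idx e X, p ≠ p0 → ¬ r2 ≡ a (val p) [ZMOD (val p : ℤ)]) := by
  obtain ⟨x, i0, j0⟩ := p0
  have hm := mem_idx.1 hp0
  simp only at hm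
  obtain ⟨hxX, hpr, hi0, hj0⟩ := hm
  obtain ⟨r, _, hr⟩ := one_hole e X he a (fun _ => True) x (by omega) 0 0 (by omega)
    (by intro p hp; simp [mem_idx] at hp)
  set P : Finset (ℕ × ℕ) := (range (e x) ×ˢ range (x - 1)).erase (i0, j0) with hP
  have hmemP : ∀ p ∈ P, p.1 < e x ∧ p.2 < x - 1 := by
    intro p hp
    have := Finset.mem_of_mem_erase hp
    simpa using this
  have hb := count_bad_union x (Q e x) (e x) hpr.pos (coprime_Q e hpr) r
    P (fun p => val ⟨x, p⟩) (fun p => a (val ⟨x, p⟩))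
    (fun p hp => (hmemP p hp).1)
    (fun p hp => by simp [val])
  have hw := weight_full x (e x) hpr.pos
  have hmem0 : (i0, j0) ∈ range (e x) ×ˢ range (x - 1) := by simp [hi0, hj0]
  have hsum : ∑ p ∈ P, x ^ (e x - (p.1 + 1)) + x ^ (e x - (i0 + 1)) =
      ∑ p ∈ range (e x) ×ˢ range (x - 1), x ^ (e x - (p.1 + 1)) :=
    Finset.sum_erase_add _ (fun p : ℕ × ℕ => x ^ (e x - (p.1 + 1))) hmem0
  have hpos : 0 < x ^ (e x - (i0 + 1)) := pow_pos hpr.pos _
  set B := (range (x ^ e x)).filter (fun t : ℕ => ∃ p ∈ P,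
            r + t * (Q e x : ℕ) ≡ a (val ⟨x, p⟩) [ZMOD (val ⟨x, p⟩ : ℤ)]) with hB
  have hBsub : B ⊆ range (x ^ e x) := Finset.filter_subset _ _
  have hBc : B.card ≤ ∑ p ∈ P, x ^ (e x - (p.1 + 1)) := hb
  have hcard : 1 < (range (x ^ e x) \ B).card := by
    rw [Finset.card_sdiff_of_subset hBsub, Finset.card_range]
    omega
  obtain ⟨t1, ht1, t2, ht2, hne⟩ := Finset.one_lt_card.1 hcard
  rw [Finset.mem_sdiff, Finset.mem_range] at ht1 ht2
  have hgood : ∀ t : ℕ, t < x ^ e x ∧ t ∉ B → ∀ p ∈ idx e (x + 1), p ≠ ⟨x, i0, j0⟩ →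
      ¬ r + t * (Q e x : ℕ) ≡ a (val p) [ZMOD (val p : ℤ)] := by
    intro t ht p hp hne hh
    rw [mem_idx] at hp
    rcases Nat.lt_or_ge p.1 x with hlt' | hge
    · have hp' : p ∈ idx e x := mem_idx.2 ⟨hlt', hp.2⟩
      have hd : (val p : ℤ) ∣ (Q e x : ℤ) := by
        exact_mod_cast val_dvd_Q e he (by omega) hp'
      apply hr p hp' trivial
      refine Int.ModEq.trans ?_ hh
      have h3 : r + 0 ≡ r + t * (Q e x : ℕ) [ZMOD (val p : ℤ)] := by
        apply Int.ModEq.add_left
        exact (Int.modEq_zero_iff_dvd.2 (hd.mul_left _)).symm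
      simpa using h3
    · obtain ⟨q, i, j⟩ := p
      have : q = x := by simp only at hge hp; omega
      subst this
      apply ht.2
      rw [hB, Finset.mem_filter, Finset.mem_range]
      refine ⟨ht.1, (i, j), ?_, hh⟩
      rw [hP, Finset.mem_erase]
      refine ⟨?_, by simpa using ⟨hp.2.2.1, hp.2.2.2⟩⟩
      intro heq
      apply hne
      rw [heq]
  obtain ⟨s1, hs1, hs1'⟩ := one_hole e X he a (fun p => p ≠ ⟨x, i0, j0⟩) X le_rfl
    (r + t1 * (Q e x : ℕ)) (x + 1) (by omega) (hgood t1 ht1)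
  obtain ⟨s2, hs2, hs2'⟩ := one_hole e X he a (fun p => p ≠ ⟨x, i0, j0⟩) X le_rfl
    (r + t2 * (Q e x : ℕ)) (x + 1) (by omega) (hgood t2 ht2)
  refine ⟨s1, s2, ?_, hs1', hs2'⟩
  intro hcong
  have hd : (Q e (x + 1) : ℤ) ∣ (Q e X : ℤ) := by exact_mod_cast Q_dvd e (by omega)
  have h1 : r + t1 * (Q e x : ℕ) ≡ r + t2 * (Q e x : ℕ) [ZMOD (Q e (x + 1) : ℤ)] :=
    hs1.symm.trans ((hcong.of_dvd hd).trans hs2)
  have h2 : (t1 : ℤ) * (Q e x : ℕ) ≡ t2 * (Q e x : ℕ) [ZMOD (Q e (x + 1) : ℤ)] :=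
    Int.ModEq.add_left_cancel' r h1
  have h3 : t1 * Q e x ≡ t2 * Q e x [MOD Q e (x + 1)] := by
    rw [← Int.natCast_modEq_iff]
    push_cast
    exact h2
  rw [Q_succ_prime e hpr] at h3
  have h4 : t1 ≡ t2 [MOD x ^ e x] := by
    rw [mul_comm t1, mul_comm t2] at h3
    exact Nat.ModEq.mul_left_cancel' (Q_pos e x).ne' h3
  exact hne (Nat.ModEq.eq_of_lt_of_lt h4 ht1.1 ht2.1)

/-! ### The construction is an irreducible covering set -/

/-- The covering set of the construction. -/
def S (e : ℕ → ℕ) (X : ℕ) : Finset ℕ := insert (Q e X) ((idx e X).image val)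

theorem exists_residue (e : ℕ → ℕ) (X : ℕ) (n : ℕ) : ∃ r : ℤ, ∀ p ∈ idx e X, val p = n →
    ∀ z : ℤ, ((p.2.2 + 1 : ℕ) : ℤ) ∣ z →
      z ≡ ((p.2.2 + 1) * p.1 ^ p.2.1 : ℕ) [ZMOD ((p.1 ^ (p.2.1 + 1) : ℕ) : ℤ)] →
      z ≡ r [ZMOD (n : ℤ)] := by
  by_cases h : ∃ p ∈ idx e X, val p = n
  · obtain ⟨p, hp, rfl⟩ := h
    have hp1 := mem_idx.1 hp
    have hcop : Nat.Coprime (p.2.2 + 1) (p.1 ^ (p.2.1 + 1)) := by
      apply Nat.Coprime.pow_right
      apply Nat.Coprime.symm
      exact (Nat.Prime.coprime_iff_not_dvd hp1.2.1).2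
        (Nat.not_dvd_of_pos_of_lt (by omega) (by omega))
    obtain ⟨r, hr1, hr2⟩ := Nat.chineseRemainder hcop 0 ((p.2.2 + 1) * p.1 ^ p.2.1)
    refine ⟨r, ?_⟩
    intro p' hp' hv z hz1 hz2
    have : p' = p := val_inj (Finset.mem_coe.2 hp') (Finset.mem_coe.2 hp) hv
    subst this
    have e1 : (val p' : ℤ) = ((p'.2.2 + 1 : ℕ) : ℤ) * ((p'.1 ^ (p'.2.1 + 1) : ℕ) : ℤ) := by
      unfold val
      push_cast
      ring
    rw [e1]
    rw [← Int.modEq_and_modEq_iff_modEq_mul (by rw [Int.natAbs_natCast, Int.natAbs_natCast]; exact hcop)]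
    constructor
    · have h1 : (r : ℤ) ≡ (0 : ℕ) [ZMOD ((p'.2.2 + 1 : ℕ) : ℤ)] := by
        exact (Int.natCast_modEq_iff).2 hr1
      refine Int.ModEq.trans (Int.modEq_zero_iff_dvd.2 hz1) ?_
      simpa using h1.symm
    · have h1 : (r : ℤ) ≡ ((p'.2.2 + 1) * p'.1 ^ p'.2.1 : ℕ)
          [ZMOD ((p'.1 ^ (p'.2.1 + 1) : ℕ) : ℤ)] := (Int.natCast_modEq_iff).2 hr2
      exact hz2.trans h1.symm
  · refine ⟨0, ?_⟩
    intro p hp hv
    exact absurd ⟨p, hp, hv⟩ h

theorem Q_gt_one (e : ℕ → ℕ) (X : ℕ) (he : ∀ q, X ≤ e q) (hX : 3 ≤ X) : 1 < Q e X := by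
  have h1 : Q e 3 ∣ Q e X := Q_dvd e hX
  have h2 : Q e 3 = Q e 2 * 2 ^ e 2 := Q_succ_prime e Nat.prime_two
  have h3 : 2 ∣ Q e 3 := by
    rw [h2]
    exact (dvd_pow_self 2 (by have := he 2; omega)).mul_left _
  have h4 := Nat.le_of_dvd (Q_pos e X) (h3.trans h1)
  omega

theorem Q_notMem (e : ℕ → ℕ) (X : ℕ) (he : ∀ q, X ≤ e q) (hX : 4 ≤ X) :
    Q e X ∉ (idx e X).image val := by
  intro h
  obtain ⟨⟨q, i, j⟩, hp, hv⟩ := Finset.mem_image.1 h
  have hm := mem_idx.1 hp
  simp only at hm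
  simp only [val] at hv
  have h2 : 2 ^ e 2 ∣ Q e X := by
    have h1 : Q e 3 ∣ Q e X := Q_dvd e (by omega)
    have h2 : Q e 3 = Q e 2 * 2 ^ e 2 := Q_succ_prime e Nat.prime_two
    exact (Dvd.intro_left _ h2.symm).trans h1
  have h3 : 3 ^ e 3 ∣ Q e X := by
    have h1 : Q e 4 ∣ Q e X := Q_dvd e (by omega)
    have h2 : Q e 4 = Q e 3 * 3 ^ e 3 := Q_succ_prime e Nat.prime_three
    exact (Dvd.intro_left _ h2.symm).trans h1
  by_cases hq : q = 2
  · subst hq
    have hj : j = 0 := by omega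
    subst hj
    rw [← hv] at h3
    have h4 : 3 ∣ 2 ^ (i + 1) * (0 + 1) := (dvd_pow_self 3 (by have := he 3; omega)).trans h3
    have h5 : 3 ∣ 2 ^ (i + 1) := by simpa using h4
    have := Nat.Prime.dvd_of_dvd_pow Nat.prime_three h5
    omega
  · rw [← hv] at h2
    have hc : Nat.Coprime (2 ^ e 2) (q ^ (i + 1)) :=
      Nat.Coprime.pow _ _ ((Nat.coprime_primes Nat.prime_two hm.2.1).2 (by omega))
    have h4 : 2 ^ e 2 ∣ j + 1 := hc.dvd_of_dvd_mul_left h2
    have h5 := Nat.le_of_dvd (by omega) h4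
    have h6 : e 2 < 2 ^ e 2 := Nat.lt_two_pow_self
    have := he 2
    omega

/-- Below the prime `x`, all integers not divisible by `Q e x` are covered. -/
theorem lower_cover (e : ℕ → ℕ) (X : ℕ) (he : ∀ q, X ≤ e q) (a : ℕ → ℤ)
    (ha : ∀ p ∈ idx e X, ∀ z : ℤ, ((p.2.2 + 1 : ℕ) : ℤ) ∣ z →
      z ≡ ((p.2.2 + 1) * p.1 ^ p.2.1 : ℕ) [ZMOD ((p.1 ^ (p.2.1 + 1) : ℕ) : ℤ)] →
      z ≡ a (val p) [ZMOD (val p : ℤ)]) (x : ℕ) (hx : x ≤ X) (z : ℤ)
    (hz : ¬ (Q e x : ℤ) ∣ z) : ∃ p ∈ idx e X, z ≡ a (val p) [ZMOD (val p : ℤ)] := by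
  induction x with
  | zero => simp [Q] at hz
  | succ x ih =>
    by_cases hzx : (Q e x : ℤ) ∣ z
    · by_cases hpr : x.Prime
      · -- `z` is divisible by `Q e x` but not by `x ^ e x`
        have hnd : ¬ ((x ^ e x : ℕ) : ℤ) ∣ z := by
          intro hd
          apply hz
          rw [Q_succ_prime e hpr]
          push_cast
          apply IsCoprime.mul_dvd _ hzx (by exact_mod_cast hd)
          have : Nat.Coprime (Q e x) (x ^ e x) := Nat.Coprime.pow_right _ (coprime_Q e hpr).symm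
          exact_mod_cast Nat.isCoprime_iff_coprime.2 this
        have hex : ∃ i, ¬ ((x ^ i : ℕ) : ℤ) ∣ z := ⟨e x, hnd⟩
        classical
        have hfind := Nat.find_spec hex
        have hmin := fun m (hm : m < Nat.find hex) => Nat.find_min hex hm
        have hle : Nat.find hex ≤ e x := Nat.find_min' hex hnd
        generalize Nat.find hex = v at hfind hmin hle
        obtain ⟨i, rfl⟩ : ∃ i, v = i + 1 := by
          refine ⟨v - 1, ?_⟩
          rcases Nat.eq_zero_or_pos v with h0 | h0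
          · subst h0
            simp at hfind
          · omega
        have hi : ((x ^ i : ℕ) : ℤ) ∣ z := by
          have := hmin i (by omega)
          exact not_not.1 this
        obtain ⟨w, hw⟩ := hi
        have hxz : (x : ℤ) ≠ 0 := by exact_mod_cast hpr.ne_zero
        have hxpos : (0 : ℤ) < (x : ℤ) := by exact_mod_cast hpr.pos
        have hwnd : ¬ (x : ℤ) ∣ w := by
          rintro ⟨u, rfl⟩
          apply hfind
          refine ⟨u, ?_⟩
          rw [hw]
          push_cast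
          ring
        set d := w % (x : ℤ) with hd
        have hd0 : 0 ≤ d := Int.emod_nonneg _ hxz
        have hdx : d < x := Int.emod_lt_of_pos _ hxpos
        have hdne : d ≠ 0 := by
          intro h0
          exact hwnd (Int.dvd_of_emod_eq_zero h0)
        obtain ⟨j, hj⟩ : ∃ j : ℕ, d = ((j + 1 : ℕ) : ℤ) := ⟨d.toNat - 1, by omega⟩
        have hjx : j + 1 < x := by omega
        have hmem : (⟨x, i, j⟩ : Σ _ : ℕ, ℕ × ℕ) ∈ idx e X :=
          mem_idx.2 ⟨by simp only; omega, hpr, by simp only; omega, by simp only; omega⟩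
        refine ⟨⟨x, i, j⟩, hmem, ha _ hmem z ?_ ?_⟩
        · simp only
          have h1 : j + 1 ∣ Q e x := dvd_Q e he (by omega) (by omega) hjx
          exact (Int.natCast_dvd_natCast.2 h1).trans hzx
        · simp only
          have h1 : w ≡ ((j + 1 : ℕ) : ℤ) [ZMOD (x : ℤ)] := by
            rw [← hj]
            exact (Int.mod_modEq w x).symm
          have h2 := h1.mul_left' (c := ((x ^ i : ℕ) : ℤ))
          rw [hw]
          have e1 : ((x ^ (i + 1) : ℕ) : ℤ) = ((x ^ i : ℕ) : ℤ) * (x : ℤ) := by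
            push_cast
            ring
          have e2 : (((j + 1) * x ^ i : ℕ) : ℤ) = ((x ^ i : ℕ) : ℤ) * ((j + 1 : ℕ) : ℤ) := by
            push_cast
            ring
          rw [e1, e2]
          exact h2
      · rw [Q_succ_not_prime e hpr] at hz
        exact absurd hzx hz
    · exact ih (by omega) hzx

theorem covering (e : ℕ → ℕ) (X : ℕ) (he : ∀ q, X ≤ e q) (hX : 4 ≤ X) :
    IsCoveringSet (S e X) := by
  choose a ha using exists_residue e X
  refine ⟨?_, fun n => if n = Q e X then 0 else a n, ?_⟩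
  · intro n hn
    rcases Finset.mem_insert.1 hn with rfl | hn
    · exact Q_gt_one e X he (by omega)
    · obtain ⟨p, hp, rfl⟩ := Finset.mem_image.1 hn
      exact val_pos hp
  · intro z
    by_cases hz : (Q e X : ℤ) ∣ z
    · refine ⟨Q e X, Finset.mem_insert_self _ _, ?_⟩
      simp only [if_true]
      exact Int.modEq_zero_iff_dvd.2 hz
    · obtain ⟨p, hp, h⟩ := lower_cover e X he a
        (fun p hp z h1 h2 => ha (val p) p hp rfl z h1 h2) X le_rfl z hz
      have hmem : val p ∈ (idx e X).image val := Finset.mem_image_of_mem _ hp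
      refine ⟨val p, Finset.mem_insert_of_mem hmem, ?_⟩
      have hne : val p ≠ Q e X := by
        intro heq
        rw [heq] at hmem
        exact Q_notMem e X he hX hmem
      simp only [if_neg hne]
      exact h

theorem IsCoveringSet.mono {A B : Finset ℕ} (h : A ⊆ B) (hB : ∀ n ∈ B, 1 < n)
    (hA : IsCoveringSet A) : IsCoveringSet B := by
  obtain ⟨_, a, ha⟩ := hA
  refine ⟨hB, a, fun z => ?_⟩
  obtain ⟨n, hn, hz⟩ := ha z
  exact ⟨n, h hn, hz⟩

theorem irreducible (e : ℕ → ℕ) (X : ℕ) (he : ∀ q, X ≤ e q) (hX : 4 ≤ X) :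
    IsIrreducible (S e X) := by
  refine ⟨covering e X he hX, ?_⟩
  intro T hT hcov
  obtain ⟨hsub, hne⟩ := Finset.ssubset_iff_subset_ne.1 hT
  obtain ⟨m, hmS, hmT⟩ : ∃ m ∈ S e X, m ∉ T := by
    by_contra hcon
    push Not at hcon
    exact hne (Finset.Subset.antisymm hsub hcon)
  obtain ⟨_, a, ha⟩ := hcov
  rcases Finset.mem_insert.1 hmS with rfl | hm
  · -- the last modulus is missing
    obtain ⟨r, _, hr⟩ := one_hole e X he a (fun _ => True) X le_rfl 0 0 (by omega)
      (by intro p hp; simp [mem_idx] at hp)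
    obtain ⟨n, hn, hrn⟩ := ha r
    rcases Finset.mem_insert.1 (hsub hn) with rfl | hn'
    · exact hmT hn
    · obtain ⟨p, hp, rfl⟩ := Finset.mem_image.1 hn'
      exact hr p hp trivial hrn
  · obtain ⟨p0, hp0, rfl⟩ := Finset.mem_image.1 hm
    obtain ⟨r1, r2, hr, h1, h2⟩ := two_holes e X he a p0 hp0
    have key : ∀ r : ℤ, (∀ p ∈ idx e X, p ≠ p0 → ¬ r ≡ a (val p) [ZMOD (val p : ℤ)]) →
        r ≡ a (Q e X) [ZMOD (Q e X : ℤ)] := by
      intro r hr
      obtain ⟨n, hn, hrn⟩ := ha r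
      rcases Finset.mem_insert.1 (hsub hn) with rfl | hn'
      · exact hrn
      · obtain ⟨p, hp, rfl⟩ := Finset.mem_image.1 hn'
        exfalso
        refine hr p hp ?_ hrn
        rintro rfl
        exact hmT hn
    exact hr ((key r1 h1).trans (key r2 h2).symm)

/-! ### Size and reciprocal sum -/

theorem card_S (e : ℕ → ℕ) (X : ℕ) (he : ∀ q, X ≤ e q) (hX : 4 ≤ X) :
    (S e X).card = ∑ q ∈ (range X).filter Nat.Prime, e q * (q - 1) + 1 := by
  unfold S
  rw [Finset.card_insert_of_notMem (Q_notMem e X he hX), Finset.card_image_of_injOn val_inj]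
  unfold idx
  rw [Finset.card_sigma]
  simp

theorem recip_S (e : ℕ → ℕ) (X : ℕ) (he : ∀ q, X ≤ e q) (hX : 4 ≤ X) :
    ∑ q ∈ (range X).filter Nat.Prime, Real.log q / q ≤ ∑ n ∈ S e X, (1 : ℝ) / n := by
  unfold S
  rw [Finset.sum_insert (Q_notMem e X he hX), Finset.sum_image val_inj]
  have h0 : (0 : ℝ) ≤ 1 / (Q e X : ℝ) := by positivity
  refine le_add_of_nonneg_of_le h0 ?_
  unfold idx
  rw [Finset.sum_sigma]
  apply Finset.sum_le_sum
  intro q hq
  simp only [Finset.mem_filter, Finset.mem_range] at hq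
  have hq0 : (0 : ℝ) < q := by exact_mod_cast hq.2.pos
  have h1 : Real.log q ≤ ∑ j ∈ range (q - 1), (1 : ℝ) / (j + 1) := by
    have h2 := log_add_one_le_harmonic (q - 1)
    have h3 : q - 1 + 1 = q := by have := hq.2.pos; omega
    rw [h3] at h2
    refine h2.trans (le_of_eq ?_)
    simp [harmonic]
  have hmem : 0 ∈ range (e q) := by
    rw [Finset.mem_range]
    have := he q
    omega
  calc Real.log q / q ≤ (∑ j ∈ range (q - 1), (1 : ℝ) / (j + 1)) / q := by gcongr
    _ = ∑ j ∈ range (q - 1), (1 : ℝ) / (val ⟨q, 0, j⟩) := by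
        rw [Finset.sum_div]
        apply Finset.sum_congr rfl
        intro j _
        simp only [val]
        push_cast
        field_simp
    _ ≤ ∑ i ∈ range (e q), ∑ j ∈ range (q - 1), (1 : ℝ) / (val ⟨q, i, j⟩) := by
        refine Finset.single_le_sum
          (f := fun i => ∑ j ∈ range (q - 1), (1 : ℝ) / (val ⟨q, i, j⟩)) ?_ hmem
        intro i _
        positivity
    _ = ∑ p ∈ range (e q) ×ˢ range (q - 1), (1 : ℝ) / (val ⟨q, p⟩) := by
        rw [Finset.sum_product]

/-- A weak form of Mertens' first theorem. -/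
theorem mertens (X : ℕ) (hX : 2 ≤ X) :
    (Real.log ((X - 1 : ℕ) : ℝ) - 1) / 2 ≤
      ∑ q ∈ (range X).filter Nat.Prime, Real.log q / q := by
  obtain ⟨n, rfl⟩ : ∃ n, X = n + 1 := ⟨X - 1, by omega⟩
  simp only [Nat.add_sub_cancel]
  have hn : 1 ≤ n := by omega
  have hn0 : (0 : ℝ) < n := by exact_mod_cast hn
  have hfac : (0 : ℝ) < (n.factorial : ℝ) := by exact_mod_cast n.factorial_pos
  -- lower bound for `log n!`
  have h1 : (n : ℝ) * Real.log n - n ≤ Real.log (n.factorial : ℝ) := by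
    have h2 := Real.pow_div_factorial_le_exp (n : ℝ) hn0.le n
    rw [div_le_iff₀ hfac] at h2
    have h3 := Real.log_le_log (by positivity) h2
    rw [Real.log_pow, Real.log_mul (Real.exp_pos _).ne' hfac.ne', Real.log_exp] at h3
    linarith
  -- upper bound for `log n!`
  have h2 : Real.log (n.factorial : ℝ) ≤
      ∑ q ∈ (range (n + 1)).filter Nat.Prime, 2 * n * (Real.log q / q) := by
    rw [Real.log_nat_eq_sum_factorization, Finsupp.sum, Nat.support_factorization]
    have hsub : (n.factorial).primeFactors ⊆ (range (n + 1)).filter Nat.Prime := by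
      intro q hq
      have hp := Nat.prime_of_mem_primeFactors hq
      have hd := Nat.dvd_of_mem_primeFactors hq
      simp only [Finset.mem_filter, Finset.mem_range]
      exact ⟨Nat.lt_succ_of_le ((hp.dvd_factorial).1 hd), hp⟩
    calc ∑ q ∈ (n.factorial).primeFactors, ((n.factorial).factorization q : ℝ) * Real.log q
        ≤ ∑ q ∈ (n.factorial).primeFactors, 2 * n * (Real.log q / q) := by
          apply Finset.sum_le_sum
          intro q hq
          have hp := Nat.prime_of_mem_primeFactors hq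
          have := Fact.mk hp
          have hlog : 0 ≤ Real.log q := Real.log_natCast_nonneg q
          have hq0 : (0 : ℝ) < q := by exact_mod_cast hp.pos
          have h3 : (q - 1) * (n.factorial).factorization q ≤ n := by
            rw [Nat.factorization_def _ hp, sub_one_mul_padicValNat_factorial]
            omega
          have h4 : q * (n.factorial).factorization q ≤ 2 * n := by
            have h5 : q ≤ 2 * (q - 1) := by have := hp.two_le; omega
            calc q * (n.factorial).factorization q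
                ≤ 2 * (q - 1) * (n.factorial).factorization q := Nat.mul_le_mul_right _ h5
              _ = 2 * ((q - 1) * (n.factorial).factorization q) := by ring
              _ ≤ 2 * n := Nat.mul_le_mul_left _ h3
          have h6 : (q : ℝ) * ((n.factorial).factorization q : ℝ) ≤ 2 * n := by exact_mod_cast h4
          have h7 : ((n.factorial).factorization q : ℝ) ≤ 2 * n / q := by
            rw [le_div_iff₀ hq0]
            linarith
          calc ((n.factorial).factorization q : ℝ) * Real.log q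
              ≤ 2 * n / q * Real.log q := mul_le_mul_of_nonneg_right h7 hlog
            _ = 2 * n * (Real.log q / q) := by ring
      _ ≤ _ := by
          apply Finset.sum_le_sum_of_subset_of_nonneg hsub
          intro q _ _
          have hlog : 0 ≤ Real.log q := Real.log_natCast_nonneg q
          positivity
  rw [← Finset.mul_sum] at h2
  have h3 := h1.trans h2
  have h4 : (n : ℝ) * (Real.log n - 1) ≤
      n * (2 * ∑ q ∈ (range (n + 1)).filter Nat.Prime, Real.log q / q) := by linarith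
  have h5 := le_of_mul_le_mul_left h4 hn0
  linarith

/-- Sum of reciprocals of `k` distinct positive integers. -/
theorem sum_recip_le (k : ℕ) : ∀ S : Finset ℕ, (∀ n ∈ S, 0 < n) → S.card = k →
    ∑ n ∈ S, (1 : ℝ) / n ≤ ∑ i ∈ range k, (1 : ℝ) / (i + 1) := by
  induction k with
  | zero =>
    intro S _ hc
    rw [Finset.card_eq_zero] at hc
    simp [hc]
  | succ k ih =>
    intro S hS hc
    have hne : S.Nonempty := by
      rw [← Finset.card_pos]
      omega
    have hm := Finset.max'_mem S hne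
    set m := S.max' hne with hmdef
    have hle : k + 1 ≤ m := by
      have hsub : S ⊆ Finset.Icc 1 m := by
        intro n hn
        rw [Finset.mem_Icc]
        exact ⟨hS n hn, Finset.le_max' S n hn⟩
      have := Finset.card_le_card hsub
      rw [Nat.card_Icc] at this
      omega
    have h1 := ih (S.erase m) (fun n hn => hS n (Finset.mem_of_mem_erase hn))
      (by rw [Finset.card_erase_of_mem hm]; omega)
    rw [← Finset.sum_erase_add S _ hm, Finset.sum_range_succ]
    have h2 : (1 : ℝ) / m ≤ 1 / ((k : ℝ) + 1) := by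
      apply one_div_le_one_div_of_le (by positivity)
      exact_mod_cast hle
    linarith

theorem upper (k : ℕ) (x : ℝ) (hx : x ∈ reciprocalSums k) : x ≤ 1 + Real.log k := by
  obtain ⟨S, hS, hc, rfl⟩ := hx
  have h1 := sum_recip_le k S (fun n hn => by have := hS.1.1 n hn; omega) hc
  have h2 := harmonic_le_one_add_log k
  have h3 : (harmonic k : ℝ) = ∑ i ∈ range k, (1 : ℝ) / (i + 1) := by simp [harmonic]
  rw [h3] at h2
  exact h1.trans h2

theorem bddAbove (k : ℕ) : BddAbove (reciprocalSums k) := ⟨1 + Real.log k, fun x hx => upper k x hx⟩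

theorem lower (X k : ℕ) (hX : 20 ≤ X) (h1 : (X + 1) ^ 3 ≤ k) (h2 : k < (X + 2) ^ 3) :
    1 / 12 * Real.log k ≤ M k := by
  set R := ∑ q ∈ (range X).filter Nat.Prime \ {2}, X * (q - 1) with hR
  have hRle : R ≤ X ^ 3 := by
    calc R ≤ ∑ q ∈ (range X).filter Nat.Prime \ {2}, X ^ 2 := by
          apply Finset.sum_le_sum
          intro q hq
          simp only [Finset.mem_sdiff, Finset.mem_filter, Finset.mem_range] at hq
          rw [pow_two]
          apply Nat.mul_le_mul_left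
          omega
      _ = ((range X).filter Nat.Prime \ {2}).card * X ^ 2 := by simp
      _ ≤ X * X ^ 2 := by
          apply Nat.mul_le_mul_right
          calc _ ≤ ((range X).filter Nat.Prime).card := Finset.card_le_card Finset.sdiff_subset
            _ ≤ (range X).card := Finset.card_filter_le _ _
            _ = X := Finset.card_range X
      _ = X ^ 3 := by ring
  have hbig : R + 1 + X ≤ k := by nlinarith
  set A := k - 1 - R with hA
  let e : ℕ → ℕ := fun q => if q = 2 then A else X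
  have he : ∀ q, X ≤ e q := by
    intro q
    simp only [e]
    split_ifs
    · omega
    · exact le_rfl
  have h2mem : 2 ∈ (range X).filter Nat.Prime := by
    simp only [Finset.mem_filter, Finset.mem_range]
    exact ⟨by omega, Nat.prime_two⟩
  have hcard : (S e X).card = k := by
    rw [card_S e X he (by omega)]
    have h3 : ∑ q ∈ (range X).filter Nat.Prime, e q * (q - 1) = R + A := by
      rw [← Finset.sum_sdiff (Finset.singleton_subset_iff.2 h2mem)]
      congr 1
      · apply Finset.sum_congr rfl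
        intro q hq
        simp only [Finset.mem_sdiff, Finset.mem_singleton] at hq
        simp only [e, if_neg hq.2]
      · simp [e]
    rw [h3]
    omega
  have hmem : ∑ n ∈ S e X, (1 : ℝ) / n ∈ reciprocalSums k :=
    ⟨S e X, irreducible e X he (by omega), hcard, rfl⟩
  have hM := le_csSup (bddAbove k) hmem
  have h3 := recip_S e X he (by omega)
  have h4 := mertens X (by omega)
  have h5 : (Real.log ((X - 1 : ℕ) : ℝ) - 1) / 2 ≤ M k := h4.trans (h3.trans hM)
  have h6 : Real.log k ≤ 3 * Real.log ((X + 2 : ℕ) : ℝ) := by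
    have hk0 : (0 : ℝ) < k := by
      have : 0 < k := by omega
      exact_mod_cast this
    have h7 : (k : ℝ) ≤ ((X + 2 : ℕ) : ℝ) ^ 3 := by exact_mod_cast h2.le
    have h8 := Real.log_le_log hk0 h7
    rwa [Real.log_pow] at h8
  have h7 : Real.log ((X + 2 : ℕ) : ℝ) + 2 ≤ 2 * Real.log ((X - 1 : ℕ) : ℝ) := by
    have hexp : Real.exp 2 ≤ 9 := by
      have h8 : Real.exp 2 = Real.exp 1 * Real.exp 1 := by rw [← Real.exp_add]; norm_num
      have h9 := Real.exp_one_lt_three
      have h10 := Real.exp_pos 1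
      rw [h8]
      nlinarith
    have hX2 : (0 : ℝ) < ((X + 2 : ℕ) : ℝ) := by positivity
    have h8 : Real.log ((X + 2 : ℕ) : ℝ) + 2 = Real.log (((X + 2 : ℕ) : ℝ) * Real.exp 2) := by
      rw [Real.log_mul hX2.ne' (Real.exp_pos _).ne', Real.log_exp]
    have h9 : 2 * Real.log ((X - 1 : ℕ) : ℝ) = Real.log (((X - 1 : ℕ) : ℝ) ^ 2) := by
      rw [Real.log_pow]
      norm_num
    rw [h8, h9]
    apply Real.log_le_log (by positivity)
    have h10 : (X + 2) * 9 ≤ (X - 1) ^ 2 := by
      obtain ⟨u, rfl⟩ : ∃ u, X = u + 20 := ⟨X - 20, by omega⟩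
      have : u + 20 - 1 = u + 19 := by omega
      rw [this]
      nlinarith
    calc ((X + 2 : ℕ) : ℝ) * Real.exp 2 ≤ ((X + 2 : ℕ) : ℝ) * 9 := by gcongr
      _ ≤ ((X - 1 : ℕ) : ℝ) ^ 2 := by exact_mod_cast h10
  linarith

/-- **Main result.** `M k = Θ(log k)` as `k → ∞`; in particular `M` is unbounded. -/
theorem result : ∃ c C : ℝ, 0 < c ∧ 0 < C ∧ ∃ K : ℕ, ∀ k : ℕ, K ≤ k →
    c * Real.log k ≤ M k ∧ M k ≤ C * Real.log k := by
  refine ⟨1 / 12, 2, by norm_num, by norm_num, 21 ^ 3, ?_⟩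
  intro k hk
  constructor
  · have hex : ∃ y, k < (y + 1) ^ 3 := ⟨k, Nat.lt_of_lt_of_le (Nat.lt_succ_self k) (Nat.le_self_pow (by norm_num) (k + 1))⟩
    classical
    have h1 := Nat.find_spec hex
    have h2 := fun m (hm : m < Nat.find hex) => Nat.find_min hex hm
    generalize Nat.find hex = y at h1 h2
    have hy : 21 ≤ y := by
      by_contra hlt
      have : y + 1 ≤ 21 := by omega
      have := Nat.pow_le_pow_left this 3
      omega
    have h3 : y ^ 3 ≤ k := by
      have := h2 (y - 1) (by omega)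
      have e1 : y - 1 + 1 = y := by omega
      rw [e1] at this
      omega
    obtain ⟨X, rfl⟩ : ∃ X, y = X + 1 := ⟨y - 1, by omega⟩
    exact lower X k (by omega) h3 h1
  · have hk0 : (1 : ℝ) ≤ Real.log k := by
      rw [Real.le_log_iff_exp_le (by have : 0 < k := by omega
                                     exact_mod_cast this)]
      have h9 := Real.exp_one_lt_three
      have h10 : (3 : ℝ) ≤ k := by
        have : 3 ≤ k := by omega
        exact_mod_cast this
      linarith
    apply Real.sSup_le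
    · intro x hx
      have := upper k x hx
      linarith
    · linarith

end Pool.Agent.Results.MP_cc5630_nt.Theta
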